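import Pool.Agent.Zk54.MQ.M20

/-!
# McKay bijections with degrees congruent up to sign modulo `p`: one asymptotic inequality decides

Let `p` be a prime. Question Q1 asks for a bijection from `Irr_{p'}(G)` onto `Irr_{p'}(N_G(P))` with degrees
congruent up to sign modulo `p`; equivalently, for all classes `± b` of units the numbers of characters with degree
in `± b` are equal for `G` and `N_G(P)`. Let `𝒢` be a class of finite groups closed under direct products with
metacyclic groups of order prime to `p` and under regular wreath products with the cyclic groups of prime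
order `q ≠ p` (for instance all finite groups, the `p`-solvable groups, the groups with
composition factors in a given set that contains all cyclic groups of prime order). Fix two
classes `± b ≠ ± c` and suppose only that

  `(n_b(G) - n_c(G)) - (n_b(N_G(P)) - n_c(N_G(P))) ≤ o(|G|)`  for `G` in `𝒢`.

We prove that Q1 holds for all groups of `𝒢`. So Q1 for all finite groups and a given `p` is equivalent to one
one-sided inequality with a large error for one pair of classes. More generally the difference may be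
weighted with any even function `ℓ` of mean zero with a nonzero Fourier coefficient at a character
`u ↦ η(u²)` with kernel `± 1`.

Proof. Let `D(G)` be the difference of the elements `∑ [χ(1)²]` of the group ring `ℤ[(ℤ/p)ˣ]` for `G` and
`N_G(P)`.
* For `1 ≤ a < p` and primes `Q = 1 + a k` let `H` be the Frobenius group of order `Q a`. Then
  `D(G × H) = D(G) (k [a²] + a)`, so the hypothesis for `G × H`, divided by `k → ∞`, gives
  `L(D(G) [a²]) ≤ ε |G| a` for the linear form `L` with the weights `ℓ`, for all `ε`; so `L(D(G)[a²]) ≤ 0` for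
  all `a`. As `ℓ` has mean zero the sum over all `a` is zero, so all these numbers are zero.
* So the Fourier coefficient of `D(G)` vanishes at the character `η` (on squares), for all `G` in `𝒢`.
* For the wreath product with the cyclic group of order `q` the degrees are `χ_1(1) ⋯ χ_q(1) q` and
  `χ(1)^q`, which gives `q D(G ≀ C_q) = [q²](A^q - B^q - ψ_q D) + q² ψ_q D`, where `A - B = D = D(G)` and `ψ_q` is the
  Adams operation. At `η` this is `0 = (q² - η(q²)) η^q(D)`, so the Fourier coefficient of `D(G)` at `η^q` vanishes for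
  all `G` in `𝒢`, hence at all powers of `η`. As `η` is faithful on the squares, `D(G) = 0`.
-/

set_option autoImplicit false
set_option linter.unusedSectionVars false
set_option linter.style.haveILetI false

open scoped Classical BigOperators

noncomputable section

namespace Pool.Agent.Results.MP_5ecade_al.OneInequality

/-- `χ` is the character of an irreducible complex representation of `G`. -/
def IsIrr {G : Type} [Group G] (χ : G → ℂ) : Prop :=
  ∃ (V : Type) (_ : AddCommGroup V) (_ : Module ℂ V) (_ : FiniteDimensional ℂ V)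
    (ρ : Representation ℂ G V), ρ.IsIrreducible ∧ χ = ρ.character

/-- The set `Irr_{p'}(G)` of the irreducible characters of `G` of degree prime to `p`. -/
def IrrP (p : ℕ) (G : Type) [Group G] : Type :=
  {χ : G → ℂ // IsIrr χ ∧ ∃ d : ℕ, χ 1 = (d : ℂ) ∧ ¬ p ∣ d}

/-- The normalizer of a Sylow subgroup. -/
abbrev N {p : ℕ} {G : Type} [Group G] (P : Sylow p G) : Subgroup G :=
  Subgroup.normalizer ((P : Subgroup G) : Set G)

/-- The bijection of Q1 for `G` and `P`: from `Irr_{p'}(G)` onto `Irr_{p'}(N_G(P))` with degrees congruent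
up to sign modulo `p`. -/
def HasBijection {p : ℕ} {G : Type} [Group G] (P : Sylow p G) : Prop :=
  ∃ e : IrrP p G ≃ IrrP p (N P), ∀ (χ : IrrP p G) (m n : ℕ), χ.1 1 = (m : ℂ) → (e χ).1 1 = (n : ℂ) →
    (m : ℤ) ≡ n [ZMOD p] ∨ (m : ℤ) ≡ -n [ZMOD p]

/-- `H` is metacyclic: it has a cyclic normal subgroup with cyclic quotient. -/
def Metacyclic (H : Type) [Group H] : Prop :=
  ∃ N : Subgroup H, ∃ _ : N.Normal, IsCyclic N ∧ IsCyclic (H ⧸ N)

/-- The action of `S` on the functions from `S` to `G` by translations. -/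
def shift (G S : Type) [Group G] [Group S] : S →* MulAut (S → G) where
  toFun s :=
    { toFun := fun g i => g (s⁻¹ * i)
      invFun := fun g i => g (s * i)
      left_inv := fun g => by
        funext i
        simp
      right_inv := fun g => by
        funext i
        simp
      map_mul' := fun _ _ => rfl }
  map_one' := by
    ext g i
    simp
  map_mul' s t := by
    ext g i
    simp [mul_assoc]

/-- The class `𝒢` of groups is closed under direct products with metacyclic groups of order prime to `p` and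
under regular wreath products with the cyclic groups of prime order `q ≠ p`. -/
def Closed (p : ℕ) (𝒢 : (G : Type) → [Group G] → Prop) : Prop :=
  (∀ (G H : Type) [Group G] [Finite G] [Group H] [Finite H], 𝒢 G → Metacyclic H →
    ¬ p ∣ Nat.card H → 𝒢 (G × H)) ∧
  ∀ q : ℕ, q.Prime → q ≠ p → ∀ (G : Type) [Group G] [Finite G], 𝒢 G →
    𝒢 ((Multiplicative (ZMod q) → G) ⋊[shift G (Multiplicative (ZMod q))] Multiplicative (ZMod q))

/-- The sum of `ℓ(χ(1) mod p)` over the irreducible characters `χ` of `G` of degree prime to `p`. -/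
def total (p : ℕ) (ℓ : ZMod p → ℝ) (G : Type) [Group G] : ℝ :=
  ∑ᶠ χ : IrrP p G, ℓ (χ.2.2.choose : ZMod p)

/-- The number of the irreducible characters of `G` with degree congruent to `b` or `-b` modulo `p`. -/
def num (p : ℕ) (b : (ZMod p)ˣ) (G : Type) [Group G] : ℕ :=
  Nat.card {χ : G → ℂ // IsIrr χ ∧ ∃ d : ℕ, χ 1 = (d : ℂ) ∧ ((d : ZMod p) = b ∨ (d : ZMod p) = -b)}

section

open Pool.Agent.K3h3.MK Pool.Agent.K3h3.KB

variable {p : ℕ} [hp : Fact p.Prime] {G : Type} [Group G] [Finite G]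

theorem deg_iff {χ : G → ℂ} (h : IsIrr χ) {d : ℕ} : χ 1 = (d : ℂ) ↔ d = ndeg χ := by
  constructor
  · intro h1
    exact (ndeg_eq h1.symm).symm
  · rintro rfl
    exact (ndeg_cast h).symm

theorem cong_iff (m n : ℕ) : ((m : ℤ) ≡ n [ZMOD p] ∨ (m : ℤ) ≡ -n [ZMOD p]) ↔
    ((m : ZMod p)) ^ 2 = (n : ZMod p) ^ 2 := by
  rw [sq_eq_sq_iff_eq_or_eq_neg, ← ZMod.intCast_eq_intCast_iff, ← ZMod.intCast_eq_intCast_iff]
  simp

theorem deg_prime_iff {χ : G → ℂ} (h1 : IsIrr χ) : (∃ d : ℕ, χ 1 = (d : ℂ) ∧ ¬ p ∣ d) ↔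
    (ndeg χ : ZMod p) ≠ 0 := by
  constructor
  · rintro ⟨d, h2, h3⟩
    rw [deg_iff h1] at h2
    rw [← h2]
    exact fun h => h3 ((ZMod.natCast_eq_zero_iff _ _).mp h)
  · intro h2
    exact ⟨ndeg χ, (deg_iff h1).mpr rfl, fun h => h2 ((ZMod.natCast_eq_zero_iff _ _).mpr h)⟩

/-- the two descriptions of `Irr_{p'}(G)` -/
def eqv (p : ℕ) [Fact p.Prime] (G : Type) [Group G] [Finite G] : IrrP p G ≃ X p G :=
  Equiv.subtypeEquivRight fun χ => by
    constructor
    · rintro ⟨h1, h2⟩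
      exact ⟨h1, (deg_prime_iff h1).mp h2⟩
    · rintro ⟨h1, h2⟩
      exact ⟨h1, (deg_prime_iff h1).mpr h2⟩

theorem kap_eq_iff {H : Type} [Group H] [Finite H] (χ : X p G) (ψ : X p H) :
    kap p ψ = kap p χ ↔ ((ndeg χ.1 : ZMod p)) ^ 2 = (ndeg ψ.1 : ZMod p) ^ 2 := by
  unfold kap
  rw [Units.ext_iff]
  simp only [Units.val_pow_eq_pow_val, Units.val_mk0]
  exact eq_comm

theorem hasBijection_iff (P : Sylow p G) :
    HasBijection P ↔ wt (cl p) G = wt (cl p) (NN P) := by
  constructor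
  · rintro ⟨e, he⟩
    refine wt_of_bij p (((eqv p G).symm.trans e).trans (eqv p (NN P))) fun χ => ?_
    rw [kap_eq_iff]
    have h1 := he ((eqv p G).symm χ) (ndeg χ.1) (ndeg (e ((eqv p G).symm χ)).1)
      ((deg_iff χ.2.1).mpr rfl) ((deg_iff (e ((eqv p G).symm χ)).2.1).mpr rfl)
    rw [cong_iff] at h1
    exact h1
  · intro h
    obtain ⟨e, he⟩ := exists_bij p h
    refine ⟨((eqv p G).trans e).trans (eqv p (NN P)).symm, fun χ m n h1 h2 => ?_⟩
    have h3 := he (eqv p G χ)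
    rw [kap_eq_iff] at h3
    rw [deg_iff χ.2.1] at h1
    rw [deg_iff (((eqv p G).trans e).trans (eqv p (NN P)).symm χ).2.1] at h2
    rw [cong_iff, h1, h2]
    exact h3


variable (p)

theorem kap_choose (χ : IrrP p G) {c : (ZMod p)ˣ} (hc : kap p (eqv p G χ) = c ^ 2) :
    (χ.2.2.choose : ZMod p) = c ∨ (χ.2.2.choose : ZMod p) = -c := by
  have h1 := χ.2.2.choose_spec.1
  rw [deg_iff χ.2.1] at h1
  have h2 := congrArg Units.val hc
  rw [Units.val_pow_eq_pow_val] at h2
  have h3 : ((kap p (eqv p G χ) : (ZMod p)ˣ) : ZMod p) = (ndeg χ.1 : ZMod p) ^ 2 := rfl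
  rw [h3, sq_eq_sq_iff_eq_or_eq_neg, ← h1] at h2
  exact h2

/-- the weight on the squares -/
def lamOf (ℓ : ZMod p → ℝ) (v : (ZMod p)ˣ) : ℝ :=
  if h : ∃ u : (ZMod p)ˣ, u ^ 2 = v then ℓ h.choose else 0

theorem lamOf_sq {ℓ : ZMod p → ℝ} (heven : ∀ x, ℓ (-x) = ℓ x) (u : (ZMod p)ˣ) :
    lamOf p ℓ (u ^ 2) = ℓ u := by
  have h : ∃ w : (ZMod p)ˣ, w ^ 2 = u ^ 2 := ⟨u, rfl⟩
  unfold lamOf
  rw [dif_pos h]
  have h1 := congrArg Units.val h.choose_spec
  rw [Units.val_pow_eq_pow_val, Units.val_pow_eq_pow_val, sq_eq_sq_iff_eq_or_eq_neg] at h1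
  rcases h1 with h1 | h1
  · rw [h1]
  · rw [h1, heven]

theorem total_eq {ℓ : ZMod p → ℝ} (heven : ∀ x, ℓ (-x) = ℓ x) (G : Type) [Group G] [Finite G] :
    total p ℓ G = ∑ v : (ZMod p)ˣ, lamOf p ℓ v * ((wt (cl p) G).coeff v : ℝ) := by
  haveI := Fintype.ofFinite (X p G)
  have h1 : total p ℓ G = ∑ᶠ χ : X p G, lamOf p ℓ (kap p χ) := by
    unfold total
    rw [← finsum_comp_equiv (eqv p G)]
    refine finsum_congr fun χ => ?_
    have h2 := kap_choose (p := p) χ (c := Units.mk0 (ndeg χ.1 : ZMod p) (eqv p G χ).2.2) rfl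
    have h3 : lamOf p ℓ (kap p (eqv p G χ)) = ℓ (ndeg χ.1 : ZMod p) := lamOf_sq p heven _
    rw [h3]
    rcases h2 with h2 | h2
    · rw [h2]
      rfl
    · rw [h2, heven]
      rfl
  rw [h1, finsum_eq_sum_of_fintype]
  have h4 : ∀ v : (ZMod p)ˣ, ((wt (cl p) G).coeff v : ℝ) =
      ∑ χ : X p G, if kap p χ = v then (1 : ℝ) else 0 := by
    intro v
    rw [coeff_wt, Finset.sum_boole, Nat.card_eq_fintype_card, Fintype.card_subtype]
    push_cast
    rfl
  simp_rw [h4, Finset.mul_sum]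
  rw [Finset.sum_comm]
  refine Finset.sum_congr rfl fun χ _ => ?_
  rw [Finset.sum_eq_single (kap p χ)]
  · rw [if_pos rfl, mul_one]
  · intro v _ hv
    rw [if_neg (Ne.symm hv), mul_zero]
  · intro h
    exact absurd (Finset.mem_univ _) h

theorem general (𝒢 : (G : Type) → [Group G] → Prop) (hcl : Closed p 𝒢) (ℓ : ZMod p → ℝ)
    (heven : ∀ x, ℓ (-x) = ℓ x) (hmean : ∑ u : (ZMod p)ˣ, ℓ u = 0)
    (η : (ZMod p)ˣ →* ℂˣ) (hη : ∀ u : (ZMod p)ˣ, η (u ^ 2) = 1 → u ^ 2 = 1)
    (hne : ∑ u : (ZMod p)ˣ, (ℓ u : ℂ) * ((η (u ^ 2) : ℂˣ) : ℂ) ≠ 0)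
    (H : ∀ ε : ℝ, 0 < ε → ∃ C : ℝ, ∀ (G : Type) [Group G] [Finite G], 𝒢 G → ∀ P : Sylow p G,
      total p ℓ G ≤ total p ℓ (N P) + ε * Nat.card G + C)
    (G : Type) [Group G] [Finite G] (hG : 𝒢 G) (P : Sylow p G) : HasBijection P := by
  rw [hasBijection_iff]
  refine Pool.Agent.Zk54.MQ.ineq_main p 𝒢 hcl.1 ?_ (lamOf p ℓ) ?_ η hη ?_ ?_ G hG P
  · intro q hq hqp
    haveI : NeZero q := ⟨hq.ne_zero⟩
    refine ⟨Multiplicative (ZMod q), inferInstance, inferInstance, ?_, fun G _ _ hG => ?_⟩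
    · rw [Nat.card_congr Multiplicative.toAdd, Nat.card_zmod]
    · exact hcl.2 q hq hqp G hG
  · rw [← hmean]
    exact Finset.sum_congr rfl fun u _ => lamOf_sq p heven u
  · have : ∑ u : (ZMod p)ˣ, (lamOf p ℓ (u ^ 2) : ℂ) * ((η (u ^ 2) : ℂˣ) : ℂ) =
        ∑ u : (ZMod p)ˣ, (ℓ u : ℂ) * ((η (u ^ 2) : ℂˣ) : ℂ) :=
      Finset.sum_congr rfl fun u _ => by rw [lamOf_sq p heven]
    rw [this]
    exact hne
  · intro ε hε
    obtain ⟨C, hC⟩ := H ε hε
    refine ⟨C, fun G _ _ hG P => ?_⟩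
    have h1 := hC G hG P
    rw [total_eq p heven, total_eq p heven] at h1
    have h2 : ∑ v : (ZMod p)ˣ, lamOf p ℓ v * ((wt (cl p) G - wt (cl p) (NN P)).coeff v : ℝ) =
        (∑ v : (ZMod p)ˣ, lamOf p ℓ v * ((wt (cl p) G).coeff v : ℝ)) -
          ∑ v : (ZMod p)ˣ, lamOf p ℓ v * ((wt (cl p) (NN P)).coeff v : ℝ) := by
      rw [← Finset.sum_sub_distrib]
      refine Finset.sum_congr rfl fun v _ => ?_
      have h3 : (wt (cl p) G - wt (cl p) (NN P)).coeff v =
          (wt (cl p) G).coeff v - (wt (cl p) (NN P)).coeff v := rfl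
      rw [h3]
      push_cast
      ring
    rw [h2]
    linarith

theorem num_eq (b : (ZMod p)ˣ) (G : Type) [Group G] [Finite G] :
    (num p b G : ℝ) = ((wt (cl p) G).coeff (b ^ 2) : ℝ) := by
  rw [coeff_wt]
  unfold num
  have hk : ∀ χ : X p G, kap p χ = b ^ 2 ↔
      ((ndeg χ.1 : ZMod p) = b ∨ (ndeg χ.1 : ZMod p) = -b) := by
    intro χ
    rw [← sq_eq_sq_iff_eq_or_eq_neg, ← Units.val_pow_eq_pow_val]
    constructor
    · intro h
      rw [← h]
      rfl
    · intro h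
      exact Units.ext h
  push_cast
  congr 1
  refine Nat.card_congr
    { toFun := fun χ => ⟨⟨χ.1, χ.2.1, ?_⟩, ?_⟩
      invFun := fun χ => ⟨χ.1.1, χ.1.2.1, ndeg χ.1.1, (deg_iff χ.1.2.1).mpr rfl, (hk χ.1).mp χ.2⟩
      left_inv := fun χ => rfl
      right_inv := fun χ => rfl }
  · obtain ⟨d, h1, h2⟩ := χ.2.2
    rw [deg_iff χ.2.1] at h1
    rw [← h1]
    rcases h2 with h2 | h2
    · rw [h2]
      exact b.ne_zero
    · rw [h2]
      exact neg_ne_zero.mpr b.ne_zero
  · refine (hk _).mpr ?_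
    obtain ⟨d, h1, h2⟩ := χ.2.2
    rw [deg_iff χ.2.1] at h1
    change (ndeg χ.1 : ZMod p) = b ∨ (ndeg χ.1 : ZMod p) = -b
    rw [← h1]
    exact h2

theorem exists_eta : ∃ η : (ZMod p)ˣ →* ℂˣ, Function.Injective η := by
  obtain ⟨g, hg⟩ := IsCyclic.exists_generator (α := (ZMod p)ˣ)
  have hn : orderOf g ≠ 0 := (orderOf_pos g).ne'
  have hζ := Complex.isPrimitiveRoot_exp (orderOf g) hn
  obtain ⟨z, hz⟩ := hζ.isUnit hn
  have ho : orderOf z = orderOf g := by
    rw [← orderOf_units, hz]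
    exact hζ.eq_orderOf.symm
  refine ⟨monoidHomOfForallMemZpowers hg (g' := z) (by rw [ho]), ?_⟩
  rw [injective_iff_map_eq_one]
  intro x hx
  obtain ⟨k, rfl⟩ := Subgroup.mem_zpowers_iff.mp (hg x)
  rw [map_zpow, monoidHomOfForallMemZpowers_apply_gen] at hx
  rw [← orderOf_dvd_iff_zpow_eq_one, ← ho, orderOf_dvd_iff_zpow_eq_one]
  exact hx

theorem two (𝒢 : (G : Type) → [Group G] → Prop) (hcl : Closed p 𝒢) (b c : (ZMod p)ˣ)
    (hbc : b ≠ c) (hbc' : b ≠ -c)
    (H : ∀ ε : ℝ, 0 < ε → ∃ C : ℝ, ∀ (G : Type) [Group G] [Finite G], 𝒢 G → ∀ P : Sylow p G,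
      (num p b G : ℝ) - num p c G ≤ num p b (N P) - num p c (N P) + ε * Nat.card G + C)
    (G : Type) [Group G] [Finite G] (hG : 𝒢 G) (P : Sylow p G) : HasBijection P := by
  have hsq : b ^ 2 ≠ c ^ 2 := by
    intro h
    have h1 := congrArg Units.val h
    rw [Units.val_pow_eq_pow_val, Units.val_pow_eq_pow_val, sq_eq_sq_iff_eq_or_eq_neg] at h1
    rcases h1 with h1 | h1
    · exact hbc (Units.ext h1)
    · exact hbc' (Units.ext h1)
  have hcard : (Finset.univ.filter fun u : (ZMod p)ˣ => u ^ 2 = b ^ 2).card =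
      (Finset.univ.filter fun u : (ZMod p)ˣ => u ^ 2 = c ^ 2).card := by
    refine Finset.card_equiv (Equiv.mulRight (b⁻¹ * c)) fun u => ?_
    rw [Finset.mem_filter, Finset.mem_filter, Equiv.coe_mulRight]
    refine and_congr (by simp) ?_
    rw [mul_pow, mul_pow, inv_pow]
    constructor
    · intro h
      rw [h, mul_inv_cancel_left]
    · intro h
      rw [← mul_assoc] at h
      have h1 := mul_right_cancel (h.trans (one_mul _).symm)
      exact mul_inv_eq_one.mp h1
  have hpos : (Finset.univ.filter fun u : (ZMod p)ˣ => u ^ 2 = c ^ 2).card ≠ 0 :=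
    Finset.card_ne_zero.mpr ⟨c, by simp⟩
  obtain ⟨η, hη⟩ := exists_eta p
  rw [hasBijection_iff]
  refine Pool.Agent.Zk54.MQ.ineq_main p 𝒢 hcl.1 ?_
    (fun v => (if v = b ^ 2 then 1 else 0) - (if v = c ^ 2 then 1 else 0)) ?_ η ?_ ?_ ?_ G hG P
  · intro q hq hqp
    haveI : NeZero q := ⟨hq.ne_zero⟩
    refine ⟨Multiplicative (ZMod q), inferInstance, inferInstance, ?_, fun G _ _ hG => ?_⟩
    · rw [Nat.card_congr Multiplicative.toAdd, Nat.card_zmod]
    · exact hcl.2 q hq hqp G hG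
  · rw [Finset.sum_sub_distrib, Finset.sum_boole, Finset.sum_boole, hcard, sub_self]
  · intro u hu
    exact hη (hu.trans (map_one η).symm)
  · have h1 : ∀ (d : (ZMod p)ˣ) (u : (ZMod p)ˣ),
        ((if u ^ 2 = d ^ 2 then (1 : ℝ) else 0 : ℝ) : ℂ) * ((η (u ^ 2) : ℂˣ) : ℂ) =
          (if u ^ 2 = d ^ 2 then (1 : ℂ) else 0) * ((η (d ^ 2) : ℂˣ) : ℂ) := by
      intro d u
      by_cases h : u ^ 2 = d ^ 2
      · rw [if_pos h, if_pos h, h]
        simp
      · rw [if_neg h, if_neg h]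
        simp
    have h2 : ∑ u : (ZMod p)ˣ, (((if u ^ 2 = b ^ 2 then (1 : ℝ) else 0) -
        (if u ^ 2 = c ^ 2 then (1 : ℝ) else 0) : ℝ) : ℂ) * ((η (u ^ 2) : ℂˣ) : ℂ) =
        ((Finset.univ.filter fun u : (ZMod p)ˣ => u ^ 2 = c ^ 2).card : ℂ) *
          (((η (b ^ 2) : ℂˣ) : ℂ) - ((η (c ^ 2) : ℂˣ) : ℂ)) := by
      simp_rw [Complex.ofReal_sub, sub_mul, h1]
      rw [Finset.sum_sub_distrib, ← Finset.sum_mul, ← Finset.sum_mul, Finset.sum_boole,
        Finset.sum_boole, hcard, mul_sub]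
    rw [h2]
    refine mul_ne_zero (by exact_mod_cast hpos) (sub_ne_zero.mpr fun h => hsq ?_)
    exact hη (Units.ext h)
  · intro ε hε
    obtain ⟨C, hC⟩ := H ε hε
    refine ⟨C, fun G _ _ hG P => ?_⟩
    have h1 := hC G hG P
    rw [num_eq, num_eq, num_eq, num_eq] at h1
    have h2 : ∑ v : (ZMod p)ˣ, ((if v = b ^ 2 then (1 : ℝ) else 0) -
        (if v = c ^ 2 then (1 : ℝ) else 0)) *
        ((wt (cl p) G - wt (cl p) (NN P)).coeff v : ℝ) =
        ((wt (cl p) G - wt (cl p) (NN P)).coeff (b ^ 2) : ℝ) -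
          ((wt (cl p) G - wt (cl p) (NN P)).coeff (c ^ 2) : ℝ) := by
      simp_rw [sub_mul, ite_mul, one_mul, zero_mul]
      rw [Finset.sum_sub_distrib, Finset.sum_ite_eq' Finset.univ, Finset.sum_ite_eq' Finset.univ,
        if_pos (Finset.mem_univ _), if_pos (Finset.mem_univ _)]
    have h3 : ∀ v, (wt (cl p) G - wt (cl p) (NN P)).coeff v =
        (wt (cl p) G).coeff v - (wt (cl p) (NN P)).coeff v := fun v => rfl
    rw [h2, h3, h3]
    push_cast
    linarith

end

/-- Let `𝒢` be a class of groups closed under direct products with metacyclic groups of order prime to `p` and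
under regular wreath products with the cyclic groups of prime order `q ≠ p`.
(1) Let `ℓ` be an even real function on the residues modulo `p` with mean zero on the units and
`∑ ℓ(u) η(u²) ≠ 0` for a character `η` of the units which is faithful on the squares. If for each `ε > 0` the
sum of `ℓ(χ(1))` over `Irr_{p'}(G)` exceeds the sum for `N_G(P)` by at most `ε |G| + C(ε)`, for all `G` in `𝒢`, then Q1
holds for all `G` in `𝒢`.
(2) Let `b`, `c` be units modulo `p` with `b ≠ ± c`. If for each `ε > 0` the number of characters of degree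
`≡ ± b` minus the number of characters of degree `≡ ± c` modulo `p` is for `G` larger than for `N_G(P)` by at
most `ε |G| + C(ε)`, for all `G` in `𝒢`, then Q1 holds for all `G` in `𝒢`. -/
theorem result (p : ℕ) [Fact p.Prime] (𝒢 : (G : Type) → [Group G] → Prop) (h𝒢 : Closed p 𝒢) :
    (∀ ℓ : ZMod p → ℝ, (∀ x, ℓ (-x) = ℓ x) → ∑ u : (ZMod p)ˣ, ℓ u = 0 →
      ∀ η : (ZMod p)ˣ →* ℂˣ, (∀ u : (ZMod p)ˣ, η (u ^ 2) = 1 → u ^ 2 = 1) →
      ∑ u : (ZMod p)ˣ, (ℓ u : ℂ) * ((η (u ^ 2) : ℂˣ) : ℂ) ≠ 0 →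
      (∀ ε : ℝ, 0 < ε → ∃ C : ℝ, ∀ (G : Type) [Group G] [Finite G], 𝒢 G → ∀ P : Sylow p G,
        total p ℓ G ≤ total p ℓ (N P) + ε * Nat.card G + C) →
      ∀ (G : Type) [Group G] [Finite G], 𝒢 G → ∀ P : Sylow p G, HasBijection P) ∧
    ∀ b c : (ZMod p)ˣ, b ≠ c → b ≠ -c →
      (∀ ε : ℝ, 0 < ε → ∃ C : ℝ, ∀ (G : Type) [Group G] [Finite G], 𝒢 G → ∀ P : Sylow p G,
        (num p b G : ℝ) - num p c G ≤ num p b (N P) - num p c (N P) + ε * Nat.card G + C) →
      ∀ (G : Type) [Group G] [Finite G], 𝒢 G → ∀ P : Sylow p G, HasBijection P :=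
  ⟨fun ℓ h1 h2 η h3 h4 H => general p 𝒢 h𝒢 ℓ h1 h2 η h3 h4 H,
    fun b c h1 h2 H => two p 𝒢 h𝒢 b c h1 h2 H⟩

end Pool.Agent.Results.MP_5ecade_al.OneInequality
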