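import Pool.Agent.Zk54.MR.R8
import Pool.Agent.Zk54.MR.R10
import Pool.Agent.Zk54.MR.R11
import Pool.Agent.Zk54.MR.ZZ

/-!
# McKay bijections with degrees congruent up to sign modulo `p`: tame composition factors

Let `p` be a prime. Question Q1 asks for a bijection from `Irr_{p'}(G)` onto `Irr_{p'}(N_G(P))` with degrees
congruent up to sign modulo `p` (the Isaacs-Navarro form of the McKay conjecture). We prove it, also in the relative
form, for all finite groups `G` such that the nonabelian composition factors `T` of the subgroups of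
`G` of index prime to `p` are tame: `p ∤ |Aut(T)|` (so `T` is any simple `p'`-group with `p ∤ |Out(T)|`), or
`p` divides `|T|`, the Sylow `p`-subgroups of `T` are cyclic and `Out(T)` is cyclic of order prime to `p`. This class is
closed under arbitrary extensions, and it contains the solvable groups, the tame simple groups whose
proper subgroups of index prime to `p` are in the class, and `PSL_2(p)` for `p ≥ 5`. The Sylow
`p`-subgroups can have any rank and any class, also modulo the solvable radical. The library result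
`CyclicMonolithicSections` covers only those extensions in which, modulo the solvable radical, no two such
factors are permuted or lie in one chief factor.

The general form is a reduction theorem. An obstruction is a group `Y` with a unique minimal normal subgroup
`M` such that `M` is not abelian, the Sylow `p`-subgroups `Q` of `Y` are not cyclic and `Y = M N_Y(Q)`, and
`M` is not of inner type (`Y` induces only inner automorphisms on a simple factor `S` of `M`, and `S` is
good: the bijections exist for the perfect central extensions `U` of `S` by groups of order prime to `p` over all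
characters of `Z(U)`), not of prime type (`p ∤ |S|` and `Y` induces on `S` automorphisms of order prime to
`p`) and not of cyclic type (`S` has cyclic Sylow `p`-subgroups, `p` divides `|S|`, and the
automorphisms of `S` induced by `Y` form modulo the inner ones a cyclic group of order prime to `p`). If no quotient
of a subgroup of index prime to `p` of `G` is an obstruction, then Q1 holds for `G`.

Proof (outline). Let `G` be a group of the class with `p ∤ |Z(G)|`, in which the solvable normal subgroups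
are central, `G / Z(G)` has the unique minimal normal subgroup `M` and `G = L N_G(P)` for all noncentral
normal subgroups `L` (this is the situation after the reduction in `CyclicMonolithicSections`), and let `P` be
noncyclic. Let `S` be a simple factor of `M` as above.
* The factors of `M` lift to perfect subgroups of `G` which are conjugate and centralize each other. So there
  are a perfect group `U` with `U / Z(U) = S` and a homomorphism `m` from `U^Ω` into `G` with normal image
  `L`, where `Ω` is the set of factors, and `g ∈ G` acts by `g m(u) g⁻¹ = m(v)`, `v(g ω) = α_{g,ω}(u(ω))`, with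
  automorphisms `α_{g,ω}` of `U` which are trivial on `Z(U)`. In the cyclic type they are, modulo inner automorphisms,
  powers of one automorphism `a` of order `b` prime to `p`; in the prime type they have order prime to `p`.
* Let `p` divide `|S|`. Let `Q` be a Sylow `p`-subgroup of `U`, fixed by `a`, `U₀ = N_U(Q)`, and let `B` be the
  normalizer of the image `R` of `Q^Ω`. Then `G = L B`, `L ∩ B = m(U₀^Ω)`, `B ≥ N_G(P)` after conjugation, and Q1 holds for `B` by
  induction, as the nontrivial `p`-subgroup `R` is normal in `B` but not in `G`.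
* There is a bijection from `Irr_{p'}(U)` onto `Irr_{p'}(U₀)` with degrees congruent up to sign modulo `p`,
  compatible with the characters of `Z(U)` and with the action of `a`: for each divisor `d` of `b` the relative form of
  Q1 for the group `U ⋊ ⟨a^d⟩`, which has cyclic Sylow `p`-subgroups, gives an equality of weighted numbers
  of orbits, and these equalities for all `d` give the equivariant bijection.
* The characters of `L` and of `L ∩ B` of degree prime to `p` are given by functions `f` from `Ω` to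
  `Irr_{p'}(U)` and `Irr_{p'}(U₀)`. For corresponding characters `θ_f` and `θ'_f` with inertia groups `T` and
  `T ∩ B` the tensor products of operators `R(u) t^i`, where `t` intertwines the representations of `U` of the
  different characters with their images under `a`, define projective representations of `T ∩ B`
  which extend `θ_f` and `θ'_f` and have the same factor set: as `a` has order prime to `p` and the characters
  have the same central characters, `t` can be chosen for `U` and for `U₀` with the same power `t^b`.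
  So the characters of `T` over `θ_f` and those of `T ∩ B` over `θ'_f` have the same degrees up to the
  factor `θ_f(1) / θ'_f(1)`, and the Clifford correspondence compares `G` and `B`.
* If `p ∤ |S|`, the coordinates can be chosen such that `P` permutes them, so `L ∩ N_G(P)` is the image of the
  functions which are constant on the orbits `o` of `P` on `Ω`. An automorphism of `ℂ` which maps the roots of unity
  of order dividing `|U|²` to their `|o|`-th powers corrects the degrees and the factor sets (the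
  intertwining operators are normalized to determinant one).
-/

set_option autoImplicit false
set_option linter.unusedSectionVars false
set_option linter.style.haveILetI false

open scoped Classical

noncomputable section

namespace Pool.Agent.Results.MP_5ecade_al.TameCompositionFactors

/-- `χ` is the character of an irreducible complex representation of `G`. -/
def IsIrr {G : Type} [Group G] (χ : G → ℂ) : Prop :=
  ∃ (V : Type) (_ : AddCommGroup V) (_ : Module ℂ V) (_ : FiniteDimensional ℂ V)
    (ρ : Representation ℂ G V), ρ.IsIrreducible ∧ χ = ρ.character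

/-- The set `Irr_{p'}(G)` of the irreducible characters of `G` of degree prime to `p`. -/
def IrrP (p : ℕ) (G : Type) [Group G] : Type :=
  {χ : G → ℂ // IsIrr χ ∧ ∃ d : ℕ, χ 1 = (d : ℂ) ∧ ¬ p ∣ d}

/-- The normalizer of a Sylow subgroup. -/
abbrev N {p : ℕ} {G : Type} [Group G] (P : Sylow p G) : Subgroup G :=
  Subgroup.normalizer ((P : Subgroup G) : Set G)

/-- The bijection of Q1 for `G` and `P`: from `Irr_{p'}(G)` onto `Irr_{p'}(N_G(P))` with degrees congruent
up to sign modulo `p`. -/
def HasBijection {p : ℕ} {G : Type} [Group G] (P : Sylow p G) : Prop :=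
  ∃ e : IrrP p G ≃ IrrP p (N P), ∀ (χ : IrrP p G) (m n : ℕ), χ.1 1 = (m : ℂ) → (e χ).1 1 = (n : ℂ) →
    (m : ℤ) ≡ n [ZMOD p] ∨ (m : ℤ) ≡ -n [ZMOD p]

/-- The irreducible characters of `X` of degree prime to `p` whose restriction to the group `L` (embedded
in `X` by `j`) contains `θ`, that is, which are not orthogonal to `θ` on `L`. -/
def IrrOver (p : ℕ) {L X : Type} [Group L] [Group X] (j : L →* X) (θ : L → ℂ) : Type :=
  {χ : X → ℂ // IsIrr χ ∧ (∃ d : ℕ, χ 1 = (d : ℂ) ∧ ¬ p ∣ d) ∧ ∑ᶠ l : L, χ (j l) * θ l⁻¹ ≠ 0}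

/-- The relative form: a bijection from the irreducible characters of `G` of degree prime to `p`
over `θ` onto those of `L N_G(P)`, with degrees congruent up to sign modulo `p`. -/
def HasRelativeBijection {p : ℕ} {G : Type} [Group G] (P : Sylow p G) (L : Subgroup G)
    (θ : L → ℂ) : Prop :=
  ∃ e : IrrOver p L.subtype θ ≃ IrrOver p (Subgroup.inclusion (le_sup_left : L ≤ L ⊔ N P)) θ,
    ∀ (χ : IrrOver p L.subtype θ) (m n : ℕ), χ.1 1 = (m : ℂ) → (e χ).1 1 = (n : ℂ) →
      (m : ℤ) ≡ n [ZMOD p] ∨ (m : ℤ) ≡ -n [ZMOD p]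

/-- `θ` is invariant under conjugation with the elements of `P`. -/
def Invariant {p : ℕ} {G : Type} [Group G] (P : Sylow p G) (L : Subgroup G) (θ : L → ℂ) : Prop :=
  ∀ x ∈ P, ∀ l l' : L, x * l * x⁻¹ = l' → θ l' = θ l

/-- The group `S` is good: for every finite perfect group `U` with `U / Z(U)` isomorphic to `S` and `Z(U)` of
order prime to `p`, the bijection exists over every irreducible character of `Z(U)`. -/
def Good (p : ℕ) (S : Type) [Group S] : Prop :=
  ∀ (U : Type) [Group U] [Finite U], commutator U = ⊤ → ¬ p ∣ Nat.card (Subgroup.center U) →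
    Nonempty (U ⧸ Subgroup.center U ≃* S) → ∀ (P : Sylow p U) (ν : Subgroup.center U → ℂ),
      IsIrr ν → HasRelativeBijection P (Subgroup.center U) ν

/-- `M` has a simple normal subgroup `S` which is good, such that each element of `Y` which normalizes `S`
acts on `S` as an inner automorphism of `S`. -/
def InnerType (p : ℕ) {Y : Type} [Group Y] (M : Subgroup Y) : Prop :=
  ∃ S : Subgroup Y, S ≤ M ∧ (∀ m ∈ M, ∀ s ∈ S, m * s * m⁻¹ ∈ S) ∧ IsSimpleGroup S ∧
    (∀ y : Y, (∀ s ∈ S, y * s * y⁻¹ ∈ S) → ∃ s ∈ S, ∀ t ∈ S, y * t * y⁻¹ = s * t * s⁻¹) ∧ Good p S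

/-- `M` is of cyclic type: it has a simple normal subgroup `S` of order divisible by `p` with cyclic Sylow
`p`-subgroups, and there are an element `y₀` which normalizes `S` and a number `b` prime to `p` such that `y₀ ^ b`
acts on `S` as an inner automorphism of `S`, and each element of `Y` which normalizes `S` acts on `S` as a power
of `y₀` followed by an inner automorphism of `S`. -/
def CyclicType (p : ℕ) {Y : Type} [Group Y] (M : Subgroup Y) : Prop :=
  ∃ S : Subgroup Y, S ≤ M ∧ (∀ m ∈ M, ∀ s ∈ S, m * s * m⁻¹ ∈ S) ∧ IsSimpleGroup S ∧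
    p ∣ Nat.card S ∧ (∀ Q : Sylow p S, IsCyclic Q) ∧
    ∃ (y₀ : Y) (b : ℕ), (∀ s ∈ S, y₀ * s * y₀⁻¹ ∈ S) ∧ ¬ p ∣ b ∧
      (∃ s ∈ S, ∀ t ∈ S, y₀ ^ b * t * (y₀ ^ b)⁻¹ = s * t * s⁻¹) ∧
      ∀ y : Y, (∀ s ∈ S, y * s * y⁻¹ ∈ S) →
        ∃ i : ℕ, ∃ s ∈ S, ∀ t ∈ S, y * t * y⁻¹ = s * (y₀ ^ i * t * (y₀ ^ i)⁻¹) * s⁻¹

/-- `M` is of prime type: it has a simple normal subgroup `S` of order prime to `p` such that each element
`y` of `Y` which normalizes `S` has a power `y ^ k`, `k` prime to `p`, which centralizes `S`. -/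
def PrimeType (p : ℕ) {Y : Type} [Group Y] (M : Subgroup Y) : Prop :=
  ∃ S : Subgroup Y, S ≤ M ∧ (∀ m ∈ M, ∀ s ∈ S, m * s * m⁻¹ ∈ S) ∧ IsSimpleGroup S ∧
    ¬ p ∣ Nat.card S ∧ ∀ y : Y, (∀ s ∈ S, y * s * y⁻¹ ∈ S) →
      ∃ k : ℕ, ¬ p ∣ k ∧ ∀ s ∈ S, y ^ k * s * (y ^ k)⁻¹ = s

/-- `Y` is an obstruction: it has a unique minimal normal subgroup `M`, `M` is not abelian, a Sylow
`p`-subgroup `Q` of `Y` is not cyclic, `Y = M N_Y(Q)`, and `M` is not of inner, cyclic or prime type. -/
def Obstruction (p : ℕ) (Y : Type) [Group Y] : Prop :=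
  ∃ M : Subgroup Y, M.Normal ∧ (∀ L : Subgroup Y, L.Normal → L ≠ ⊥ → M ≤ L) ∧
    (∃ a ∈ M, ∃ b ∈ M, a * b ≠ b * a) ∧ (∃ Q : Sylow p Y, ¬ IsCyclic Q ∧ M ⊔ N Q = ⊤) ∧
    ¬ InnerType p M ∧ ¬ CyclicType p M ∧ ¬ PrimeType p M

/-- `G` is unobstructed: no homomorphic image `Y` of a subgroup `H` of `G` of index prime to `p` is an
obstruction. -/
def Unobstructed (p : ℕ) (G : Type) [Group G] : Prop :=
  ∀ (Y : Type) [Group Y] (H : Subgroup G) (f : H →* Y), ¬ p ∣ H.index → Function.Surjective f →
    ¬ Obstruction p Y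

/-- The group `T` is tame: `p` does not divide the order of `Aut(T)`, or `p` divides the order of `T`, the Sylow
`p`-subgroups of `T` are cyclic and `Out(T)` is cyclic of order prime to `p`. -/
def Tame (p : ℕ) (T : Type) [Group T] : Prop :=
  ¬ p ∣ Nat.card (MulAut T) ∨ (∀ Q : Sylow p T, IsCyclic Q) ∧ p ∣ Nat.card T ∧
    ∃ (a : MulAut T) (b : ℕ), ¬ p ∣ b ∧ (∃ s : T, ∀ t, (a ^ b) t = s * t * s⁻¹) ∧
      ∀ x : MulAut T, ∃ (i : ℕ) (s : T), ∀ t, x t = s * (a ^ i) t * s⁻¹

/-- `G` has tame factors: if `C` is a subgroup of `G` of index prime to `p`, `B` is normal in `C` and `A` is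
normal in `B`, then every nonabelian simple homomorphic image `T` of `A` is tame. (For a finite group `G` this
means that the nonabelian composition factors of all subgroups of index prime to `p` are tame.) -/
def TameFactors (p : ℕ) (G : Type) [Group G] : Prop :=
  ∀ (C B A : Subgroup G) (T : Type) [Group T] (f : A →* T), ¬ p ∣ C.index →
    B ≤ C → (∀ c ∈ C, ∀ b ∈ B, c * b * c⁻¹ ∈ B) → A ≤ B → (∀ b ∈ B, ∀ a ∈ A, b * a * b⁻¹ ∈ A) →
    Function.Surjective f → IsSimpleGroup T → (∃ a b : T, a * b ≠ b * a) → Tame p T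

section

open Pool.Agent.K3h3.MK Pool.Agent.K3h3.KB Pool.Agent.K3h83.IN

variable {p : ℕ} [hp : Fact p.Prime] {G : Type} [Group G] [Finite G]

theorem deg_iff {χ : G → ℂ} (h : IsIrr χ) {d : ℕ} : χ 1 = (d : ℂ) ↔ d = ndeg χ := by
  constructor
  · intro h1
    exact (ndeg_eq h1.symm).symm
  · rintro rfl
    exact (ndeg_cast h).symm

theorem cong_iff (m n : ℕ) : ((m : ℤ) ≡ n [ZMOD p] ∨ (m : ℤ) ≡ -n [ZMOD p]) ↔
    ((m : ZMod p)) ^ 2 = (n : ZMod p) ^ 2 := by
  rw [sq_eq_sq_iff_eq_or_eq_neg, ← ZMod.intCast_eq_intCast_iff, ← ZMod.intCast_eq_intCast_iff]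
  simp

theorem deg_prime_iff {χ : G → ℂ} (h1 : IsIrr χ) : (∃ d : ℕ, χ 1 = (d : ℂ) ∧ ¬ p ∣ d) ↔
    (ndeg χ : ZMod p) ≠ 0 := by
  constructor
  · rintro ⟨d, h2, h3⟩
    rw [deg_iff h1] at h2
    rw [← h2]
    exact fun h => h3 ((ZMod.natCast_eq_zero_iff _ _).mp h)
  · intro h2
    exact ⟨ndeg χ, (deg_iff h1).mpr rfl, fun h => h2 ((ZMod.natCast_eq_zero_iff _ _).mpr h)⟩

/-- the two descriptions of `Irr_{p'}(G)` -/
def eqv (p : ℕ) [Fact p.Prime] (G : Type) [Group G] [Finite G] : IrrP p G ≃ X p G :=
  Equiv.subtypeEquivRight fun χ => by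
    constructor
    · rintro ⟨h1, h2⟩
      exact ⟨h1, (deg_prime_iff h1).mp h2⟩
    · rintro ⟨h1, h2⟩
      exact ⟨h1, (deg_prime_iff h1).mpr h2⟩

theorem kap_eq_iff {H : Type} [Group H] [Finite H] (χ : X p G) (ψ : X p H) :
    kap p ψ = kap p χ ↔ ((ndeg χ.1 : ZMod p)) ^ 2 = (ndeg ψ.1 : ZMod p) ^ 2 := by
  unfold kap
  rw [Units.ext_iff]
  simp only [Units.val_pow_eq_pow_val, Units.val_mk0]
  exact eq_comm

theorem hasBijection_iff (P : Sylow p G) :
    HasBijection P ↔ wt (cl p) G = wt (cl p) (NN P) := by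
  constructor
  · rintro ⟨e, he⟩
    refine wt_of_bij p (((eqv p G).symm.trans e).trans (eqv p (NN P))) fun χ => ?_
    rw [kap_eq_iff]
    have h1 := he ((eqv p G).symm χ) (ndeg χ.1) (ndeg (e ((eqv p G).symm χ)).1)
      ((deg_iff χ.2.1).mpr rfl) ((deg_iff (e ((eqv p G).symm χ)).2.1).mpr rfl)
    rw [cong_iff] at h1
    exact h1
  · intro h
    obtain ⟨e, he⟩ := exists_bij p h
    refine ⟨((eqv p G).trans e).trans (eqv p (NN P)).symm, fun χ m n h1 h2 => ?_⟩
    have h3 := he (eqv p G χ)
    rw [kap_eq_iff] at h3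
    rw [deg_iff χ.2.1] at h1
    rw [deg_iff (((eqv p G).trans e).trans (eqv p (NN P)).symm χ).2.1] at h2
    rw [cong_iff, h1, h2]
    exact h3

theorem over_iff {L X : Type} [Group L] [Finite L] [Group X] (j : L →* X) (θ : L → ℂ)
    (χ : X → ℂ) : ∑ᶠ l : L, χ (j l) * θ l⁻¹ ≠ 0 ↔ ov j θ χ := by
  haveI := Fintype.ofFinite L
  rw [ov_iff, finsum_eq_sum_of_fintype]
  unfold Pool.Agent.Helper884.IC.B
  have h : (Nat.card L : ℂ)⁻¹ ≠ 0 := inv_ne_zero (by exact_mod_cast Nat.card_pos.ne')
  rw [mul_ne_zero_iff]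
  exact ⟨fun h1 => ⟨h, h1⟩, fun h1 => h1.2⟩

/-- the two descriptions of the characters over `θ` -/
def eqvOver (p : ℕ) [Fact p.Prime] {L X : Type} [Group L] [Finite L] [Group X] [Finite X]
    (j : L →* X) (θ : L → ℂ) : IrrOver p j θ ≃
      {χ : X → ℂ // Pool.Agent.H254R3.IN.IsIrr χ ∧ (ndeg χ : ZMod p) ≠ 0 ∧ ov j θ χ} :=
  Equiv.subtypeEquivRight fun χ => by
    constructor
    · rintro ⟨h1, h2, h3⟩
      exact ⟨h1, (deg_prime_iff h1).mp h2, (over_iff j θ χ).mp h3⟩
    · rintro ⟨h1, h2, h3⟩
      exact ⟨h1, (deg_prime_iff h1).mpr h2, (over_iff j θ χ).mpr h3⟩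

theorem hasRelative_of (P : Sylow p G) (L : Subgroup G) (θ : L → ℂ)
    (h : ∃ e : {χ : G → ℂ // Pool.Agent.H254R3.IN.IsIrr χ ∧ (ndeg χ : ZMod p) ≠ 0 ∧
        ov L.subtype θ χ} ≃
      {χ : (L ⊔ NN P : Subgroup G) → ℂ // Pool.Agent.H254R3.IN.IsIrr χ ∧ (ndeg χ : ZMod p) ≠ 0 ∧
        ov (Subgroup.inclusion (le_sup_left : L ≤ L ⊔ NN P)) θ χ},
      ∀ χ, ((ndeg χ.1 : ZMod p)) ^ 2 = (ndeg (e χ).1 : ZMod p) ^ 2) : HasRelativeBijection P L θ := by
  obtain ⟨e, he⟩ := h
  refine ⟨((eqvOver p L.subtype θ).trans e).trans (eqvOver p _ θ).symm, fun χ m n h1 h2 => ?_⟩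
  have h3 := he (eqvOver p L.subtype θ χ)
  rw [deg_iff χ.2.1] at h1
  rw [deg_iff (((eqvOver p L.subtype θ).trans e).trans (eqvOver p _ θ).symm χ).2.1] at h2
  rw [cong_iff, h1, h2]
  exact h3

end


section

open Pool.Agent.K3h3.MK Pool.Agent.K3h3.KB Pool.Agent.K3h83.IN Pool.Agent.Helper884
open Pool.Agent.Zk54.MQ Pool.Agent.K3h83.PI
open scoped BigOperators

theorem wo_sum {p : ℕ} [Fact p.Prime] {L X : Type} [Group L] [Finite L] [Group X] [Finite X]
    (j : L →* X) (θ : L → ℂ) :
    wo (cl p) j θ = ∑ᶠ x : {χ : X → ℂ // Pool.Agent.H254R3.IN.IsIrr χ ∧ (ndeg χ : ZMod p) ≠ 0 ∧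
      ov j θ χ}, cl p (ndeg x.1) := by
  haveI := Fintype.ofFinite X
  rw [wo_eq]
  have h1 : ∑ χ ∈ (IC.Irr X).filter (ov j θ), cl p (ndeg χ) =
      ∑ χ ∈ ((IC.Irr X).filter (ov j θ)).filter (fun χ => (ndeg χ : ZMod p) ≠ 0),
        cl p (ndeg χ) := by
    symm
    apply Finset.sum_subset (Finset.filter_subset _ _)
    intro χ h1 h2
    rw [Finset.mem_filter] at h2
    exact cl_zero (by
      by_contra hne
      exact h2 ⟨h1, hne⟩)
  have hmem : ∀ χ : X → ℂ, χ ∈ ((IC.Irr X).filter (ov j θ)).filter
      (fun χ => (ndeg χ : ZMod p) ≠ 0) ↔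
      (Pool.Agent.H254R3.IN.IsIrr χ ∧ (ndeg χ : ZMod p) ≠ 0 ∧ ov j θ χ) := by
    intro χ
    rw [Finset.mem_filter, Finset.mem_filter, Pool.Agent.H254R3.IN.mem_Irr]
    tauto
  haveI : Fintype {χ : X → ℂ // Pool.Agent.H254R3.IN.IsIrr χ ∧ (ndeg χ : ZMod p) ≠ 0 ∧
      ov j θ χ} := Fintype.subtype _ hmem
  rw [h1, finsum_eq_sum_of_fintype]
  exact Finset.sum_subtype _ hmem _

theorem wo_of_equiv {p : ℕ} [Fact p.Prime] {L X X' : Type} [Group L] [Finite L] [Group X] [Finite X]
    [Group X'] [Finite X'] (j : L →* X) (j' : L →* X') (θ : L → ℂ)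
    (e : {χ : X → ℂ // Pool.Agent.H254R3.IN.IsIrr χ ∧ (ndeg χ : ZMod p) ≠ 0 ∧ ov j θ χ} ≃
      {χ : X' → ℂ // Pool.Agent.H254R3.IN.IsIrr χ ∧ (ndeg χ : ZMod p) ≠ 0 ∧ ov j' θ χ})
    (he : ∀ χ, (ndeg χ.1 : ZMod p) ^ 2 = (ndeg (e χ).1 : ZMod p) ^ 2) :
    wo (cl p) j θ = wo (cl p) j' θ := by
  rw [wo_sum, wo_sum, ← finsum_comp_equiv e]
  exact finsum_congr fun x => cl_sq x.2.2.1 (he x)

theorem goodS_of_good {p : ℕ} [hp : Fact p.Prime] {S : Type} [Group S] (h : Good p S) :
    GoodS p S := by
  intro U _ _ hU hpZ hiso P hle nu hnu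
  obtain ⟨e, he⟩ := h U hU hpZ hiso P nu hnu
  have h1 := wo_of_equiv (p := p) (Subgroup.center U).subtype
    (Subgroup.inclusion (le_sup_left : Subgroup.center U ≤ Subgroup.center U ⊔ N P)) nu
    (((eqvOver p _ nu).symm.trans e).trans (eqvOver p _ nu)) (fun χ => by
      have h2 := he ((eqvOver p _ nu).symm χ) (ndeg χ.1)
        (ndeg (e ((eqvOver p _ nu).symm χ)).1) ((deg_iff χ.2.1).mpr rfl)
        ((deg_iff (e ((eqvOver p _ nu).symm χ)).2.1).mpr rfl)
      rw [cong_iff] at h2
      exact h2)
  rw [h1]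
  exact wo_incl (cl p) (sup_eq_right.mpr hle) _ _ nu

theorem inn_mono {p : ℕ} [hp : Fact p.Prime] {Y : Type} [Group Y] {M : Subgroup Y}
    (h : InnerType p M) : Inn (GoodS p) M := by
  obtain ⟨S, h1, h2, h3, h4, h5⟩ := h
  exact ⟨S, h1, h2, h3, h4, goodS_of_good h5⟩

theorem sec_of_unobstructed {p : ℕ} [hp : Fact p.Prime] {G : Type} [Group G]
    (h : Unobstructed p G) : Pool.Agent.Zk54.MR.Sec3 p (GoodS p) G := by
  intro Y _ H f hi hf hb
  obtain ⟨M, h1, h2, h3, h4, h5, h6⟩ := hb
  exact h Y H f hi hf ⟨M, h1, h2, h3, h4, fun h7 => h5 (inn_mono h7), h6⟩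

theorem relative_of {p : ℕ} [hp : Fact p.Prime] {C : ∀ (G : Type) [Group G], Prop} (hC : ClsP p C)
    (hQ : ∀ (Y : Type) [Group Y] [Finite Y], C Y → Q1 p Y)
    {G : Type} [Group G] [Finite G] (hG : C G) (P : Sylow p G) (L : Subgroup G) (hL : L.Normal)
    (θ : L → ℂ) (hθ : IsIrr θ) (hinv : Invariant P L θ) : HasRelativeBijection P L θ :=
  hasRelative_of P L θ (relBij a_S1 a_S6 a_S3 a_S4 a_S5 a_S13 hC hQ hG P L hL θ hθ
    fun x hx l l' h => hinv x hx l l' h)

theorem good_of_cyclic {p : ℕ} [hp : Fact p.Prime] {S : Type} [Group S] [Finite S]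
    (hS : ∀ Q : Sylow p S, IsCyclic Q) : Good p S := by
  intro U _ _ hU hpZ hiso P ν hν
  obtain ⟨e⟩ := hiso
  have hcyc : ∀ Q : Sylow p U, IsCyclic Q := by
    intro Q
    let f : Q →* S := (e.toMonoidHom.comp (QuotientGroup.mk' (Subgroup.center U))).comp
      (Q : Subgroup U).subtype
    have hf : Function.Injective f := by
      rw [injective_iff_map_eq_one]
      intro x hx
      have h1 : (x : U) ∈ Subgroup.center U := by
        rw [← QuotientGroup.eq_one_iff]
        exact (map_eq_one_iff e e.injective).mp hx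
      obtain ⟨n, hn⟩ := (IsPGroup.iff_orderOf (p := p)).mp Q.isPGroup' x
      have h2 : orderOf x ∣ Nat.card (Subgroup.center U) := by
        have h3 : orderOf (⟨(x : U), h1⟩ : Subgroup.center U) ∣ Nat.card (Subgroup.center U) :=
          orderOf_dvd_natCard _
        rw [← Subgroup.orderOf_coe] at h3
        rw [← Subgroup.orderOf_coe x]
        exact h3
      rcases Nat.eq_zero_or_pos n with rfl | h0
      · rw [pow_zero, orderOf_eq_one_iff] at hn
        exact hn
      · exact absurd ((dvd_pow_self p h0.ne').trans (hn ▸ h2)) hpZ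
    have hr : IsPGroup p f.range := by
      have h1 : IsPGroup p (⊤ : Subgroup Q) := Q.isPGroup'.to_subgroup ⊤
      have := h1.map f
      rwa [← MonoidHom.range_eq_map] at this
    obtain ⟨R, hR⟩ := hr.exists_le_sylow
    haveI := hS R
    exact isCyclic_of_injective ((Subgroup.inclusion hR).comp f.rangeRestrict)
      ((Subgroup.inclusion_injective hR).comp
        (fun a b hab => hf (congrArg Subtype.val hab)))
  refine relative_of (cls_SeP p) (fun Y _ _ hY Q => sec_main Y hY Q) (SeP_of_cyclic hcyc) P _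
    inferInstance ν hν ?_
  intro x _ l l' h
  have h1 : (l' : U) = l := by
    rw [← h, Subgroup.mem_center_iff.mp l.2 x, mul_inv_cancel_right]
  rw [Subtype.ext h1]

end

section

open Pool.Agent.Zk54.MR

theorem unobstructed_ext {p : ℕ} [hp : Fact p.Prime] {G : Type} [Group G] [Finite G] (K : Subgroup G)
    [K.Normal] (hK : TameFactors p K) (hq : Unobstructed p (G ⧸ K)) : Unobstructed p G :=
  sec3_fct (Good p) K hK hq

theorem unobstructed_of_tame {p : ℕ} [hp : Fact p.Prime] {G : Type} [Group G] [Finite G]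
    (h : TameFactors p G) : Unobstructed p G := by
  refine unobstructed_ext (⊤ : Subgroup G)
    (fct_surj (MulEquiv.toMonoidHom (Subgroup.topEquiv (G := G)).symm)
      (Subgroup.topEquiv (G := G)).symm.surjective h) ?_
  intro Y _ H f hi hf hb
  obtain ⟨M, -, -, ⟨a, -, b, -, hab⟩, -⟩ := hb
  apply hab
  haveI : Subsingleton (G ⧸ (⊤ : Subgroup G)) := QuotientGroup.subsingleton_quotient_top
  haveI : Subsingleton H := inferInstance
  haveI : Subsingleton Y := hf.subsingleton
  exact Subsingleton.elim _ _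

end

/-- (1) If the finite group `G` has tame factors and `P` is a Sylow `p`-subgroup of `G`, then Q1 holds for `G` and
`P`, also in the relative form over every `P`-invariant irreducible character of a normal subgroup. (2) Solvable
groups, (3) extensions of groups with tame factors by groups with tame factors, (4) the tame simple groups
whose proper subgroups of index prime to `p` have tame factors, and (5) the groups `PSL_2(p)` for the primes
`p ≥ 5` have tame factors.
(6) The conclusion of (1) holds if `G` is unobstructed. (7) `G` is unobstructed if it has a normal subgroup `K` with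
tame factors such that `G / K` is unobstructed. (8) `G` is unobstructed if it
has normal subgroups `M i` whose intersection is solvable and such that all `G / M i` are unobstructed.
(9) A finite group with cyclic Sylow `p`-subgroups is good. -/
theorem result (p : ℕ) [Fact p.Prime] :
    (∀ (G : Type) [Group G] [Finite G], TameFactors p G → ∀ P : Sylow p G,
      HasBijection P ∧ ∀ L : Subgroup G, L.Normal → ∀ θ : L → ℂ, IsIrr θ → Invariant P L θ →
        HasRelativeBijection P L θ) ∧
    (∀ (G : Type) [Group G], Group.IsSolvable G → TameFactors p G) ∧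
    (∀ (G : Type) [Group G] [Finite G] (K : Subgroup G) [K.Normal], TameFactors p K →
      TameFactors p (G ⧸ K) → TameFactors p G) ∧
    (∀ (S : Type) [Group S] [Finite S], IsSimpleGroup S → Tame p S →
      (∀ K : Subgroup S, ¬ p ∣ K.index → K = ⊤ ∨ TameFactors p K) → TameFactors p S) ∧
    (5 ≤ p → TameFactors p (Matrix.ProjectiveSpecialLinearGroup (Fin 2) (ZMod p))) ∧
    (∀ (G : Type) [Group G] [Finite G], Unobstructed p G → ∀ P : Sylow p G,
      HasBijection P ∧ ∀ L : Subgroup G, L.Normal → ∀ θ : L → ℂ, IsIrr θ → Invariant P L θ →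
        HasRelativeBijection P L θ) ∧
    (∀ (G : Type) [Group G] [Finite G] (K : Subgroup G) [K.Normal], TameFactors p K →
      Unobstructed p (G ⧸ K) → Unobstructed p G) ∧
    (∀ (G : Type) [Group G] [Finite G] (ι : Type) [Finite ι] (M : ι → Subgroup G)
      [∀ i, (M i).Normal], Group.IsSolvable (⨅ i, M i : Subgroup G) →
      (∀ i, Unobstructed p (G ⧸ M i)) → Unobstructed p G) ∧
    ∀ (S : Type) [Group S] [Finite S], (∀ Q : Sylow p S, IsCyclic Q) → Good p S := by
  have main : ∀ (G : Type) [Group G] [Finite G], Unobstructed p G → ∀ P : Sylow p G,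
      HasBijection P ∧ ∀ L : Subgroup G, L.Normal → ∀ θ : L → ℂ, IsIrr θ → Invariant P L θ →
        HasRelativeBijection P L θ := by
    intro G _ _ hG P
    have hG' := sec_of_unobstructed hG
    refine ⟨(hasBijection_iff P).mpr (Pool.Agent.Zk54.MR.main_class3 Pool.Agent.Zk54.MR.zz G hG' P),
      fun L hL θ hθ hinv => ?_⟩
    exact relative_of (Pool.Agent.Zk54.MR.cls_Sec3 p (Pool.Agent.Zk54.MQ.GoodS p))
      (fun Y _ _ hY => Pool.Agent.Zk54.MR.main_class3 Pool.Agent.Zk54.MR.zz Y hY) hG' P L hL θ hθ hinv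
  refine ⟨?_, ?_, ?_, ?_, ?_, main, ?_, ?_, ?_⟩
  · intro G _ _ hG P
    exact main G (unobstructed_of_tame hG) P
  · intro G _ hG
    exact Pool.Agent.Zk54.MR.fct_sol hG
  · intro G _ _ K _ hK hF
    refine Pool.Agent.Zk54.MR.fct_ext K.subtype (QuotientGroup.mk' K)
      (QuotientGroup.mk'_surjective K) ?_ hK hF
    rw [QuotientGroup.ker_mk', Subgroup.range_subtype]
  · intro S _ _ hs hS hsub
    exact Pool.Agent.Zk54.MR.fct_simple hs hS hsub
  · intro h5
    exact Pool.Agent.Zk54.MR.fct_TT (Pool.Agent.Zk54.MQ.tame_PSL p h5)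
  · intro G _ _ K _ hK hq
    exact unobstructed_ext K hK hq
  · intro G _ _ ι _ M hM hsol hq
    exact Pool.Agent.Zk54.MR.Sec3_of_sub (Good p) M hsol hq
  · intro S _ _ hS
    exact good_of_cyclic hS

end Pool.Agent.Results.MP_5ecade_al.TameCompositionFactors
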