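import Pool.Agent.Zk54.MR.R8
import Pool.Agent.Zk54.MR.R11
import Pool.Agent.Zk54.MR.ZZ
import Pool.Agent.Zk54.MQ.M16a

/-!
# McKay bijections with degrees congruent up to sign modulo `p` for wreath products

Let `A` be any finite group and `P` a Sylow `p`-subgroup of `A` for which the bijection of Q1 exists, and let
the finite group `X` act on the finite nonempty set `Ω`. We compare the wreath product `A ≀ X = A^Ω ⋊ X`
with `N_A(P) ≀ X`: the bijection of Q1 exists for one of the two groups if and only if it exists for the other.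
So Q1 passes from `A` to `A ≀ X` if `p ∤ |X|` (then `N_A(P) ≀ X` has a normal Sylow `p`-subgroup), and if `N_A(P)` has
tame factors and `X` is unobstructed (then `N_A(P) ≀ X` is unobstructed, so that
Q1 holds for it by the theorem of `TameCompositionFactors`). Here `A` may be any group which satisfies Q1,
for instance a symmetric group; its composition factors are not restricted.

Proof (outline). The irreducible characters of `A^Ω` are the products `θ_f` for functions `f` from `Ω` to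
`Irr(A)`; the inertia group of `θ_f` in `X` is the stabilizer of `f`, which acts on the tensor product by
permutation of the factors, so `θ_f` extends to its inertia group. The given bijection for `A` maps the functions
with values in `Irr_{p'}(A)` to those with values in `Irr_{p'}(N_A(P))`, with the same stabilizers. So the sums over the
`R`-invariant characters of `A^Ω` and of `N_A(P)^Ω` of the weighted numbers of characters above them, where
`R` is a Sylow `p`-subgroup of `A ≀ X` with `N(R) ≤ N_A(P) ≀ X`, are equal.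
-/

set_option autoImplicit false
set_option linter.unusedSectionVars false
set_option linter.style.haveILetI false

open scoped Classical

noncomputable section

namespace Pool.Agent.Results.MP_5ecade_al.WreathProducts

/-- `χ` is the character of an irreducible complex representation of `G`. -/
def IsIrr {G : Type} [Group G] (χ : G → ℂ) : Prop :=
  ∃ (V : Type) (_ : AddCommGroup V) (_ : Module ℂ V) (_ : FiniteDimensional ℂ V)
    (ρ : Representation ℂ G V), ρ.IsIrreducible ∧ χ = ρ.character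

/-- The set `Irr_{p'}(G)` of the irreducible characters of `G` of degree prime to `p`. -/
def IrrP (p : ℕ) (G : Type) [Group G] : Type :=
  {χ : G → ℂ // IsIrr χ ∧ ∃ d : ℕ, χ 1 = (d : ℂ) ∧ ¬ p ∣ d}

/-- The normalizer of a Sylow subgroup. -/
abbrev N {p : ℕ} {G : Type} [Group G] (P : Sylow p G) : Subgroup G :=
  Subgroup.normalizer ((P : Subgroup G) : Set G)

/-- The bijection of Q1 for `G` and `P`: from `Irr_{p'}(G)` onto `Irr_{p'}(N_G(P))` with degrees congruent
up to sign modulo `p`. -/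
def HasBijection {p : ℕ} {G : Type} [Group G] (P : Sylow p G) : Prop :=
  ∃ e : IrrP p G ≃ IrrP p (N P), ∀ (χ : IrrP p G) (m n : ℕ), χ.1 1 = (m : ℂ) → (e χ).1 1 = (n : ℂ) →
    (m : ℤ) ≡ n [ZMOD p] ∨ (m : ℤ) ≡ -n [ZMOD p]

/-- The irreducible characters of `X` of degree prime to `p` whose restriction to the group `L` (embedded
in `X` by `j`) contains `θ`, that is, which are not orthogonal to `θ` on `L`. -/
def IrrOver (p : ℕ) {L X : Type} [Group L] [Group X] (j : L →* X) (θ : L → ℂ) : Type :=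
  {χ : X → ℂ // IsIrr χ ∧ (∃ d : ℕ, χ 1 = (d : ℂ) ∧ ¬ p ∣ d) ∧ ∑ᶠ l : L, χ (j l) * θ l⁻¹ ≠ 0}

/-- The relative form: a bijection from the irreducible characters of `G` of degree prime to `p`
over `θ` onto those of `L N_G(P)`, with degrees congruent up to sign modulo `p`. -/
def HasRelativeBijection {p : ℕ} {G : Type} [Group G] (P : Sylow p G) (L : Subgroup G)
    (θ : L → ℂ) : Prop :=
  ∃ e : IrrOver p L.subtype θ ≃ IrrOver p (Subgroup.inclusion (le_sup_left : L ≤ L ⊔ N P)) θ,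
    ∀ (χ : IrrOver p L.subtype θ) (m n : ℕ), χ.1 1 = (m : ℂ) → (e χ).1 1 = (n : ℂ) →
      (m : ℤ) ≡ n [ZMOD p] ∨ (m : ℤ) ≡ -n [ZMOD p]

/-- The group `S` is good: for every finite perfect group `U` with `U / Z(U)` isomorphic to `S` and `Z(U)` of
order prime to `p`, the bijection exists over every irreducible character of `Z(U)`. -/
def Good (p : ℕ) (S : Type) [Group S] : Prop :=
  ∀ (U : Type) [Group U] [Finite U], commutator U = ⊤ → ¬ p ∣ Nat.card (Subgroup.center U) →
    Nonempty (U ⧸ Subgroup.center U ≃* S) → ∀ (P : Sylow p U) (ν : Subgroup.center U → ℂ),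
      IsIrr ν → HasRelativeBijection P (Subgroup.center U) ν

/-- `M` has a simple normal subgroup `S` which is good, such that each element of `Y` which normalizes `S`
acts on `S` as an inner automorphism of `S`. -/
def InnerType (p : ℕ) {Y : Type} [Group Y] (M : Subgroup Y) : Prop :=
  ∃ S : Subgroup Y, S ≤ M ∧ (∀ m ∈ M, ∀ s ∈ S, m * s * m⁻¹ ∈ S) ∧ IsSimpleGroup S ∧
    (∀ y : Y, (∀ s ∈ S, y * s * y⁻¹ ∈ S) → ∃ s ∈ S, ∀ t ∈ S, y * t * y⁻¹ = s * t * s⁻¹) ∧ Good p S

/-- `M` is of cyclic type: it has a simple normal subgroup `S` of order divisible by `p` with cyclic Sylow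
`p`-subgroups, and there are an element `y₀` which normalizes `S` and a number `b` prime to `p` such that `y₀ ^ b`
acts on `S` as an inner automorphism of `S`, and each element of `Y` which normalizes `S` acts on `S` as a power
of `y₀` followed by an inner automorphism of `S`. -/
def CyclicType (p : ℕ) {Y : Type} [Group Y] (M : Subgroup Y) : Prop :=
  ∃ S : Subgroup Y, S ≤ M ∧ (∀ m ∈ M, ∀ s ∈ S, m * s * m⁻¹ ∈ S) ∧ IsSimpleGroup S ∧
    p ∣ Nat.card S ∧ (∀ Q : Sylow p S, IsCyclic Q) ∧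
    ∃ (y₀ : Y) (b : ℕ), (∀ s ∈ S, y₀ * s * y₀⁻¹ ∈ S) ∧ ¬ p ∣ b ∧
      (∃ s ∈ S, ∀ t ∈ S, y₀ ^ b * t * (y₀ ^ b)⁻¹ = s * t * s⁻¹) ∧
      ∀ y : Y, (∀ s ∈ S, y * s * y⁻¹ ∈ S) →
        ∃ i : ℕ, ∃ s ∈ S, ∀ t ∈ S, y * t * y⁻¹ = s * (y₀ ^ i * t * (y₀ ^ i)⁻¹) * s⁻¹

/-- `M` is of prime type: it has a simple normal subgroup `S` of order prime to `p` such that each element
`y` of `Y` which normalizes `S` has a power `y ^ k`, `k` prime to `p`, which centralizes `S`. -/
def PrimeType (p : ℕ) {Y : Type} [Group Y] (M : Subgroup Y) : Prop :=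
  ∃ S : Subgroup Y, S ≤ M ∧ (∀ m ∈ M, ∀ s ∈ S, m * s * m⁻¹ ∈ S) ∧ IsSimpleGroup S ∧
    ¬ p ∣ Nat.card S ∧ ∀ y : Y, (∀ s ∈ S, y * s * y⁻¹ ∈ S) →
      ∃ k : ℕ, ¬ p ∣ k ∧ ∀ s ∈ S, y ^ k * s * (y ^ k)⁻¹ = s

/-- `Y` is an obstruction: it has a unique minimal normal subgroup `M`, `M` is not abelian, a Sylow
`p`-subgroup `Q` of `Y` is not cyclic, `Y = M N_Y(Q)`, and `M` is not of inner, cyclic or prime type. -/
def Obstruction (p : ℕ) (Y : Type) [Group Y] : Prop :=
  ∃ M : Subgroup Y, M.Normal ∧ (∀ L : Subgroup Y, L.Normal → L ≠ ⊥ → M ≤ L) ∧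
    (∃ a ∈ M, ∃ b ∈ M, a * b ≠ b * a) ∧ (∃ Q : Sylow p Y, ¬ IsCyclic Q ∧ M ⊔ N Q = ⊤) ∧
    ¬ InnerType p M ∧ ¬ CyclicType p M ∧ ¬ PrimeType p M

/-- `G` is unobstructed: no homomorphic image `Y` of a subgroup `H` of `G` of index prime to `p` is an
obstruction. -/
def Unobstructed (p : ℕ) (G : Type) [Group G] : Prop :=
  ∀ (Y : Type) [Group Y] (H : Subgroup G) (f : H →* Y), ¬ p ∣ H.index → Function.Surjective f →
    ¬ Obstruction p Y

/-- The group `T` is tame: `p` does not divide the order of `Aut(T)`, or `p` divides the order of `T`, the Sylow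
`p`-subgroups of `T` are cyclic and `Out(T)` is cyclic of order prime to `p`. -/
def Tame (p : ℕ) (T : Type) [Group T] : Prop :=
  ¬ p ∣ Nat.card (MulAut T) ∨ (∀ Q : Sylow p T, IsCyclic Q) ∧ p ∣ Nat.card T ∧
    ∃ (a : MulAut T) (b : ℕ), ¬ p ∣ b ∧ (∃ s : T, ∀ t, (a ^ b) t = s * t * s⁻¹) ∧
      ∀ x : MulAut T, ∃ (i : ℕ) (s : T), ∀ t, x t = s * (a ^ i) t * s⁻¹

/-- `G` has tame factors: if `C` is a subgroup of `G` of index prime to `p`, `B` is normal in `C` and `A` is
normal in `B`, then every nonabelian simple homomorphic image `T` of `A` is tame. (For a finite group `G` this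
means that the nonabelian composition factors of all subgroups of index prime to `p` are tame.) -/
def TameFactors (p : ℕ) (G : Type) [Group G] : Prop :=
  ∀ (C B A : Subgroup G) (T : Type) [Group T] (f : A →* T), ¬ p ∣ C.index →
    B ≤ C → (∀ c ∈ C, ∀ b ∈ B, c * b * c⁻¹ ∈ B) → A ≤ B → (∀ b ∈ B, ∀ a ∈ A, b * a * b⁻¹ ∈ A) →
    Function.Surjective f → IsSimpleGroup T → (∃ a b : T, a * b ≠ b * a) → Tame p T

/-- The action of `X` on the functions on the `X`-set `Ω` with values in `A`. -/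
def perm (Ω A X : Type) [Group A] [Group X] [MulAction X Ω] : X →* MulAut (Ω → A) where
  toFun x :=
    { toFun := fun u ω => u (x⁻¹ • ω)
      invFun := fun u ω => u (x • ω)
      left_inv := fun u => by funext ω; simp
      right_inv := fun u => by funext ω; simp
      map_mul' := fun _ _ => rfl }
  map_one' := by ext u ω; simp
  map_mul' x y := by ext u ω; simp [mul_smul]

section

open Pool.Agent.K3h3.MK Pool.Agent.K3h3.KB Pool.Agent.K3h83.IN

variable {p : ℕ} [hp : Fact p.Prime] {G : Type} [Group G] [Finite G]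

theorem deg_iff {χ : G → ℂ} (h : IsIrr χ) {d : ℕ} : χ 1 = (d : ℂ) ↔ d = ndeg χ := by
  constructor
  · intro h1
    exact (ndeg_eq h1.symm).symm
  · rintro rfl
    exact (ndeg_cast h).symm

theorem cong_iff (m n : ℕ) : ((m : ℤ) ≡ n [ZMOD p] ∨ (m : ℤ) ≡ -n [ZMOD p]) ↔
    ((m : ZMod p)) ^ 2 = (n : ZMod p) ^ 2 := by
  rw [sq_eq_sq_iff_eq_or_eq_neg, ← ZMod.intCast_eq_intCast_iff, ← ZMod.intCast_eq_intCast_iff]
  simp

theorem deg_prime_iff {χ : G → ℂ} (h1 : IsIrr χ) : (∃ d : ℕ, χ 1 = (d : ℂ) ∧ ¬ p ∣ d) ↔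
    (ndeg χ : ZMod p) ≠ 0 := by
  constructor
  · rintro ⟨d, h2, h3⟩
    rw [deg_iff h1] at h2
    rw [← h2]
    exact fun h => h3 ((ZMod.natCast_eq_zero_iff _ _).mp h)
  · intro h2
    exact ⟨ndeg χ, (deg_iff h1).mpr rfl, fun h => h2 ((ZMod.natCast_eq_zero_iff _ _).mpr h)⟩

/-- the two descriptions of `Irr_{p'}(G)` -/
def eqv (p : ℕ) [Fact p.Prime] (G : Type) [Group G] [Finite G] : IrrP p G ≃ X p G :=
  Equiv.subtypeEquivRight fun χ => by
    constructor
    · rintro ⟨h1, h2⟩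
      exact ⟨h1, (deg_prime_iff h1).mp h2⟩
    · rintro ⟨h1, h2⟩
      exact ⟨h1, (deg_prime_iff h1).mpr h2⟩

theorem kap_eq_iff {H : Type} [Group H] [Finite H] (χ : X p G) (ψ : X p H) :
    kap p ψ = kap p χ ↔ ((ndeg χ.1 : ZMod p)) ^ 2 = (ndeg ψ.1 : ZMod p) ^ 2 := by
  unfold kap
  rw [Units.ext_iff]
  simp only [Units.val_pow_eq_pow_val, Units.val_mk0]
  exact eq_comm

theorem hasBijection_iff (P : Sylow p G) :
    HasBijection P ↔ wt (cl p) G = wt (cl p) (NN P) := by
  constructor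
  · rintro ⟨e, he⟩
    refine wt_of_bij p (((eqv p G).symm.trans e).trans (eqv p (NN P))) fun χ => ?_
    rw [kap_eq_iff]
    have h1 := he ((eqv p G).symm χ) (ndeg χ.1) (ndeg (e ((eqv p G).symm χ)).1)
      ((deg_iff χ.2.1).mpr rfl) ((deg_iff (e ((eqv p G).symm χ)).2.1).mpr rfl)
    rw [cong_iff] at h1
    exact h1
  · intro h
    obtain ⟨e, he⟩ := exists_bij p h
    refine ⟨((eqv p G).trans e).trans (eqv p (NN P)).symm, fun χ m n h1 h2 => ?_⟩
    have h3 := he (eqv p G χ)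
    rw [kap_eq_iff] at h3
    rw [deg_iff χ.2.1] at h1
    rw [deg_iff (((eqv p G).trans e).trans (eqv p (NN P)).symm χ).2.1] at h2
    rw [cong_iff, h1, h2]
    exact h3

theorem over_iff {L X : Type} [Group L] [Finite L] [Group X] (j : L →* X) (θ : L → ℂ)
    (χ : X → ℂ) : ∑ᶠ l : L, χ (j l) * θ l⁻¹ ≠ 0 ↔ ov j θ χ := by
  haveI := Fintype.ofFinite L
  rw [ov_iff, finsum_eq_sum_of_fintype]
  unfold Pool.Agent.Helper884.IC.B
  have h : (Nat.card L : ℂ)⁻¹ ≠ 0 := inv_ne_zero (by exact_mod_cast Nat.card_pos.ne')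
  rw [mul_ne_zero_iff]
  exact ⟨fun h1 => ⟨h, h1⟩, fun h1 => h1.2⟩

/-- the two descriptions of the characters over `θ` -/
def eqvOver (p : ℕ) [Fact p.Prime] {L X : Type} [Group L] [Finite L] [Group X] [Finite X]
    (j : L →* X) (θ : L → ℂ) : IrrOver p j θ ≃
      {χ : X → ℂ // Pool.Agent.H254R3.IN.IsIrr χ ∧ (ndeg χ : ZMod p) ≠ 0 ∧ ov j θ χ} :=
  Equiv.subtypeEquivRight fun χ => by
    constructor
    · rintro ⟨h1, h2, h3⟩
      exact ⟨h1, (deg_prime_iff h1).mp h2, (over_iff j θ χ).mp h3⟩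
    · rintro ⟨h1, h2, h3⟩
      exact ⟨h1, (deg_prime_iff h1).mpr h2, (over_iff j θ χ).mpr h3⟩

end


section

open Pool.Agent.K3h3.MK Pool.Agent.K3h3.KB Pool.Agent.K3h83.IN Pool.Agent.Helper884
open Pool.Agent.Zk54.MQ Pool.Agent.K3h83.PI
open scoped BigOperators

theorem wo_sum {p : ℕ} [Fact p.Prime] {L X : Type} [Group L] [Finite L] [Group X] [Finite X]
    (j : L →* X) (θ : L → ℂ) :
    wo (cl p) j θ = ∑ᶠ x : {χ : X → ℂ // Pool.Agent.H254R3.IN.IsIrr χ ∧ (ndeg χ : ZMod p) ≠ 0 ∧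
      ov j θ χ}, cl p (ndeg x.1) := by
  haveI := Fintype.ofFinite X
  rw [wo_eq]
  have h1 : ∑ χ ∈ (IC.Irr X).filter (ov j θ), cl p (ndeg χ) =
      ∑ χ ∈ ((IC.Irr X).filter (ov j θ)).filter (fun χ => (ndeg χ : ZMod p) ≠ 0),
        cl p (ndeg χ) := by
    symm
    apply Finset.sum_subset (Finset.filter_subset _ _)
    intro χ h1 h2
    rw [Finset.mem_filter] at h2
    exact cl_zero (by
      by_contra hne
      exact h2 ⟨h1, hne⟩)
  have hmem : ∀ χ : X → ℂ, χ ∈ ((IC.Irr X).filter (ov j θ)).filter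
      (fun χ => (ndeg χ : ZMod p) ≠ 0) ↔
      (Pool.Agent.H254R3.IN.IsIrr χ ∧ (ndeg χ : ZMod p) ≠ 0 ∧ ov j θ χ) := by
    intro χ
    rw [Finset.mem_filter, Finset.mem_filter, Pool.Agent.H254R3.IN.mem_Irr]
    tauto
  haveI : Fintype {χ : X → ℂ // Pool.Agent.H254R3.IN.IsIrr χ ∧ (ndeg χ : ZMod p) ≠ 0 ∧
      ov j θ χ} := Fintype.subtype _ hmem
  rw [h1, finsum_eq_sum_of_fintype]
  exact Finset.sum_subtype _ hmem _

theorem wo_of_equiv {p : ℕ} [Fact p.Prime] {L X X' : Type} [Group L] [Finite L] [Group X] [Finite X]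
    [Group X'] [Finite X'] (j : L →* X) (j' : L →* X') (θ : L → ℂ)
    (e : {χ : X → ℂ // Pool.Agent.H254R3.IN.IsIrr χ ∧ (ndeg χ : ZMod p) ≠ 0 ∧ ov j θ χ} ≃
      {χ : X' → ℂ // Pool.Agent.H254R3.IN.IsIrr χ ∧ (ndeg χ : ZMod p) ≠ 0 ∧ ov j' θ χ})
    (he : ∀ χ, (ndeg χ.1 : ZMod p) ^ 2 = (ndeg (e χ).1 : ZMod p) ^ 2) :
    wo (cl p) j θ = wo (cl p) j' θ := by
  rw [wo_sum, wo_sum, ← finsum_comp_equiv e]
  exact finsum_congr fun x => cl_sq x.2.2.1 (he x)

theorem goodS_of_good {p : ℕ} [hp : Fact p.Prime] {S : Type} [Group S] (h : Good p S) :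
    GoodS p S := by
  intro U _ _ hU hpZ hiso P hle nu hnu
  obtain ⟨e, he⟩ := h U hU hpZ hiso P nu hnu
  have h1 := wo_of_equiv (p := p) (Subgroup.center U).subtype
    (Subgroup.inclusion (le_sup_left : Subgroup.center U ≤ Subgroup.center U ⊔ N P)) nu
    (((eqvOver p _ nu).symm.trans e).trans (eqvOver p _ nu)) (fun χ => by
      have h2 := he ((eqvOver p _ nu).symm χ) (ndeg χ.1)
        (ndeg (e ((eqvOver p _ nu).symm χ)).1) ((deg_iff χ.2.1).mpr rfl)
        ((deg_iff (e ((eqvOver p _ nu).symm χ)).2.1).mpr rfl)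
      rw [cong_iff] at h2
      exact h2)
  rw [h1]
  exact wo_incl (cl p) (sup_eq_right.mpr hle) _ _ nu

theorem inn_mono {p : ℕ} [hp : Fact p.Prime] {Y : Type} [Group Y] {M : Subgroup Y}
    (h : InnerType p M) : Inn (GoodS p) M := by
  obtain ⟨S, h1, h2, h3, h4, h5⟩ := h
  exact ⟨S, h1, h2, h3, h4, goodS_of_good h5⟩

theorem sec_of_unobstructed {p : ℕ} [hp : Fact p.Prime] {G : Type} [Group G]
    (h : Unobstructed p G) : Pool.Agent.Zk54.MR.Sec3 p (GoodS p) G := by
  intro Y _ H f hi hf hb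
  obtain ⟨M, h1, h2, h3, h4, h5, h6⟩ := hb
  exact h Y H f hi hf ⟨M, h1, h2, h3, h4, fun h7 => h5 (inn_mono h7), h6⟩

end

section

open Pool.Agent.Zk54.MQ

theorem unobstructed_wreath {p : ℕ} [hp : Fact p.Prime] {Ω A X : Type} [Group A] [Finite A] [Group X]
    [Finite X] [Finite Ω] [MulAction X Ω] (hA : TameFactors p A) (hX : Unobstructed p X) :
    Unobstructed p (WrX Ω A X) := by
  have hs : Function.Surjective (SemidirectProduct.rightHom : WrX Ω A X →* X) :=
    SemidirectProduct.rightHom_surjective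
  have e1 : (Ω → A) ≃* (SemidirectProduct.rightHom : WrX Ω A X →* X).ker :=
    (MonoidHom.ofInjective SemidirectProduct.inl_injective).trans
      (MulEquiv.subgroupCongr SemidirectProduct.range_inl_eq_ker_rightHom)
  refine Pool.Agent.Zk54.MR.sec3_fct (Good p) (SemidirectProduct.rightHom : WrX Ω A X →* X).ker
    (Pool.Agent.Zk54.MR.fct_surj e1.toMonoidHom e1.surjective (Pool.Agent.Zk54.MR.fct_pi hA)) ?_
  exact (Pool.Agent.Zk54.MR.cls_Sec3 p (Good p)).iso _ _
    ⟨(QuotientGroup.quotientKerEquivOfSurjective _ hs).symm⟩ hX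

end

section

open Pool.Agent.K3h3.MK Pool.Agent.K3h3.KB Pool.Agent.K3h83.IN Pool.Agent.Zk54.MQ

theorem bij_of_normal {p : ℕ} [hp : Fact p.Prime] {G : Type} [Group G] [Finite G] (R : Sylow p G)
    (h : (R : Subgroup G).Normal) : HasBijection R := by
  rw [hasBijection_iff]
  have h1 : NN R = ⊤ := Subgroup.normalizer_eq_top_iff.mpr h
  exact wt_congr (cl p) (Subgroup.topEquiv.symm.trans (MulEquiv.subgroupCongr h1.symm))

theorem bij_of_unobstructed {p : ℕ} [hp : Fact p.Prime] {G : Type} [Group G] [Finite G]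
    (hG : Unobstructed p G) (R : Sylow p G) : HasBijection R :=
  (hasBijection_iff R).mpr (Pool.Agent.Zk54.MR.main_class3 Pool.Agent.Zk54.MR.zz G (sec_of_unobstructed hG) R)

end

/-- Let `A` be a finite group, `P` a Sylow `p`-subgroup of `A` such that the bijection of Q1 exists for `A` and
`P`, and let `Ω` be a finite nonempty set with an action of the finite group `X`.
(1) The bijection exists for the wreath product `A^Ω ⋊ X` if and only if it exists for the wreath product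
`N_A(P)^Ω ⋊ X`. (2) If `N_A(P)` has tame factors and
`X` is unobstructed, then it exists for `A^Ω ⋊ X`. (3) If `p` does not divide `|X|`, then it exists for
`A^Ω ⋊ X`. -/
theorem result (p : ℕ) [Fact p.Prime] (Ω A X : Type) [Group A] [Finite A] [Group X] [Finite X]
    [Finite Ω] [Nonempty Ω] [MulAction X Ω] (P : Sylow p A) (hA : HasBijection P) :
    (∀ (R : Sylow p ((Ω → A) ⋊[perm Ω A X] X)) (R' : Sylow p ((Ω → N P) ⋊[perm Ω (N P) X] X)),
      HasBijection R ↔ HasBijection R') ∧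
    (TameFactors p (N P) → Unobstructed p X →
      ∀ R : Sylow p ((Ω → A) ⋊[perm Ω A X] X), HasBijection R) ∧
    (¬ p ∣ Nat.card X → ∀ R : Sylow p ((Ω → A) ⋊[perm Ω A X] X), HasBijection R) := by
  haveI i1 : Finite ((Ω → A) ⋊[perm Ω A X] X) :=
    (inferInstance : Finite (Pool.Agent.Zk54.MQ.WrX Ω A X))
  haveI i2 : Finite ((Ω → N P) ⋊[perm Ω (N P) X] X) :=
    (inferInstance : Finite (Pool.Agent.Zk54.MQ.WrX Ω (N P) X))
  have h1 : ∀ (R : Sylow p ((Ω → A) ⋊[perm Ω A X] X))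
      (R' : Sylow p ((Ω → N P) ⋊[perm Ω (N P) X] X)), HasBijection R ↔ HasBijection R' := by
    intro R R'
    have hA' := (hasBijection_iff P).mp hA
    have k1 := hasBijection_iff (p := p) (G := (Ω → A) ⋊[perm Ω A X] X) R
    have k2 := hasBijection_iff (p := p) (G := (Ω → N P) ⋊[perm Ω (N P) X] X) R'
    rw [k1, k2]
    exact Pool.Agent.Zk54.MQ.wr_iff Pool.Agent.K3h83.IN.a_S1 Pool.Agent.K3h83.IN.a_S2
      Pool.Agent.K3h83.IN.a_G5 P hA' R R'
  refine ⟨h1, fun hN hX R => ?_, fun hX R => ?_⟩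
  · obtain ⟨R'⟩ : Nonempty (Sylow p ((Ω → N P) ⋊[perm Ω (N P) X] X)) := inferInstance
    rw [h1 R R']
    exact bij_of_unobstructed (G := (Ω → N P) ⋊[perm Ω (N P) X] X)
      (unobstructed_wreath hN hX) R'
  · obtain ⟨R'⟩ : Nonempty (Sylow p ((Ω → N P) ⋊[perm Ω (N P) X] X)) := inferInstance
    rw [h1 R R']
    have hle : (P : Subgroup A) ≤ N P := Subgroup.le_normalizer
    exact bij_of_normal R' (Pool.Agent.Zk54.MQ.wr_normal (P.subtype hle)
      (Subgroup.normal_in_normalizer) hX R')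

end Pool.Agent.Results.MP_5ecade_al.WreathProducts
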